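import Pool.Agent.Helper50.HT.Stmts

/-!
# Sheet HT, row NUM
-/

set_option autoImplicit false

namespace Pool.Agent.Helper8.HT

open MeasureTheory Filter Pool.Agent.Helper95 Pool.Agent.Helper95.PW Pool.Agent.Helper95.LN
  Pool.Agent.Helper50.HT

theorem num_main {C C1 κ D η A x k l n h : ℝ} (hC : 0 < C) (hC1 : 0 < C1) (hκ : 1 ≤ κ)
    (hD : 0 < D) (hη0 : 0 < η) (hη1 : η ≤ 1) (hη : (C1 * C + C) * η ≤ 1 / (2 * κ))
    (hA : A = 128 * C1 * C / D ^ 2 + 64 * C / D + 256 * C / D) (hx : 1 ≤ x) (hk0 : 0 < k)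
    (hk1 : k ≤ η * x) (hk2 : η * x / 2 ≤ k) (hl0 : 1 ≤ l) (hl2 : l ≤ 2 * x)
    (hn : x ^ 3 / κ ≤ n) (hh : h ≤ x ^ 3 / 2)
    (hxA : 32 * κ * A / η ^ 3 ≤ Real.sqrt x) :
    C1 * (C * (k ^ 3 / (1 / (x * k)) ^ 2 + h / (D / (8 * l)) ^ 2)) - n * (k ^ 2 / (1 / (x * k))) +
      1 / 2 * (C * (k ^ 5 / (1 / (x * k)) + k ^ 3 * (l ^ 2 * Real.sqrt l) / (D / (8 * l)) +
        l ^ 5 / (D / (8 * l)))) ≤ -(η ^ 3 / (32 * κ) * x ^ 7) := by
  have hx0 : 0 < x := by linarith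
  have hκ0 : 0 < κ := by linarith
  have hlp : 0 < l := by linarith
  have e0 : C1 * (C * (k ^ 3 / (1 / (x * k)) ^ 2 + h / (D / (8 * l)) ^ 2)) -
      n * (k ^ 2 / (1 / (x * k))) +
      1 / 2 * (C * (k ^ 5 / (1 / (x * k)) + k ^ 3 * (l ^ 2 * Real.sqrt l) / (D / (8 * l)) +
        l ^ 5 / (D / (8 * l)))) =
      k ^ 3 * x * (C1 * C * k ^ 2 * x + 1 / 2 * C * k ^ 3 - n) +
      C1 * C * h * 64 * l ^ 2 / D ^ 2 + 4 * C * k ^ 3 * l ^ 3 * Real.sqrt l / D +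
      4 * C * l ^ 6 / D := by
    field_simp
    ring
  rw [e0]
  have hkx : k ≤ x := by nlinarith
  set r : ℝ := Real.sqrt x with hr
  have hr2 : r ^ 2 = x := Real.sq_sqrt hx0.le
  have hr1 : 1 ≤ r := Real.one_le_sqrt.2 hx
  have hr0 : 0 < r := by linarith
  -- main term
  have b1 : C1 * C * k ^ 2 * x + 1 / 2 * C * k ^ 3 - n ≤ -(x ^ 3 / (2 * κ)) := by
    have c1 : k ^ 2 ≤ η * x ^ 2 := by
      calc k ^ 2 ≤ (η * x) ^ 2 := by gcongr
        _ = η * (η * x ^ 2) := by ring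
        _ ≤ 1 * (η * x ^ 2) := by gcongr
        _ = η * x ^ 2 := one_mul _
    have c2 : k ^ 3 ≤ η * x ^ 3 := by
      calc k ^ 3 = k ^ 2 * k := by ring
        _ ≤ (η * x ^ 2) * x := by gcongr
        _ = η * x ^ 3 := by ring
    have c3 : C1 * C * k ^ 2 * x ≤ C1 * C * (η * x ^ 2) * x := by gcongr
    have c4 : 1 / 2 * C * k ^ 3 ≤ C * (η * x ^ 3) := by
      calc 1 / 2 * C * k ^ 3 ≤ 1 * C * (η * x ^ 3) := by gcongr; norm_num
        _ = _ := by ring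
    have c5 : (C1 * C + C) * η * x ^ 3 ≤ 1 / (2 * κ) * x ^ 3 := by gcongr
    have c6 : x ^ 3 / κ = 2 * (1 / (2 * κ) * x ^ 3) := by field_simp
    have c7 : x ^ 3 / (2 * κ) = 1 / (2 * κ) * x ^ 3 := by ring
    rw [c7]
    nlinarith
  have b2 : k ^ 3 * x * (C1 * C * k ^ 2 * x + 1 / 2 * C * k ^ 3 - n) ≤
      -(η ^ 3 / (16 * κ) * x ^ 7) := by
    have c1 : k ^ 3 * x * (C1 * C * k ^ 2 * x + 1 / 2 * C * k ^ 3 - n) ≤
        k ^ 3 * x * (-(x ^ 3 / (2 * κ))) := mul_le_mul_of_nonneg_left b1 (by positivity)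
    have c2 : (η * x / 2) ^ 3 * x * (x ^ 3 / (2 * κ)) ≤ k ^ 3 * x * (x ^ 3 / (2 * κ)) := by
      gcongr
    have c3 : (η * x / 2) ^ 3 * x * (x ^ 3 / (2 * κ)) = η ^ 3 / (16 * κ) * x ^ 7 := by
      field_simp
      ring
    linarith
  have hxr : x ^ 6 ≤ x ^ 6 * r := le_mul_of_one_le_right (by positivity) hr1
  have hx56 : x ^ 5 ≤ x ^ 6 * r := (pow_le_pow_right₀ hx (by norm_num)).trans hxr
  have b3 : C1 * C * h * 64 * l ^ 2 / D ^ 2 ≤ 128 * C1 * C / D ^ 2 * (x ^ 6 * r) := by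
    calc C1 * C * h * 64 * l ^ 2 / D ^ 2 ≤ C1 * C * (x ^ 3 / 2) * 64 * (2 * x) ^ 2 / D ^ 2 := by
          gcongr
      _ = 128 * C1 * C / D ^ 2 * x ^ 5 := by ring
      _ ≤ 128 * C1 * C / D ^ 2 * (x ^ 6 * r) := by gcongr
  have hsl : Real.sqrt l ≤ 2 * r := by
    rw [hr]
    rw [show (2 : ℝ) * Real.sqrt x = Real.sqrt (4 * x) by
      rw [Real.sqrt_mul (by norm_num)]
      congr 1
      rw [show (4 : ℝ) = 2 ^ 2 by norm_num, Real.sqrt_sq (by norm_num)]]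
    exact Real.sqrt_le_sqrt (by linarith)
  have b4 : 4 * C * k ^ 3 * l ^ 3 * Real.sqrt l / D ≤ 64 * C / D * (x ^ 6 * r) := by
    calc 4 * C * k ^ 3 * l ^ 3 * Real.sqrt l / D ≤ 4 * C * x ^ 3 * (2 * x) ^ 3 * (2 * r) / D := by
          gcongr
      _ = 64 * C / D * (x ^ 6 * r) := by ring
  have b5 : 4 * C * l ^ 6 / D ≤ 256 * C / D * (x ^ 6 * r) := by
    calc 4 * C * l ^ 6 / D ≤ 4 * C * (2 * x) ^ 6 / D := by gcongr
      _ = 256 * C / D * x ^ 6 := by ring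
      _ ≤ 256 * C / D * (x ^ 6 * r) := by gcongr
  have b6 : A * (x ^ 6 * r) ≤ η ^ 3 / (32 * κ) * x ^ 7 := by
    have c1 : A ≤ η ^ 3 / (32 * κ) * r := by
      rw [div_le_iff₀ (by positivity)] at hxA
      rw [div_mul_eq_mul_div, le_div_iff₀ (by positivity)]
      linarith
    calc A * (x ^ 6 * r) ≤ (η ^ 3 / (32 * κ) * r) * (x ^ 6 * r) := by gcongr
      _ = η ^ 3 / (32 * κ) * (x ^ 6 * r ^ 2) := by ring
      _ = η ^ 3 / (32 * κ) * x ^ 7 := by rw [hr2]; ring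
  have b7 : A * (x ^ 6 * r) = 128 * C1 * C / D ^ 2 * (x ^ 6 * r) + 64 * C / D * (x ^ 6 * r) +
      256 * C / D * (x ^ 6 * r) := by rw [hA]; ring
  have b8 : η ^ 3 / (16 * κ) * x ^ 7 = 2 * (η ^ 3 / (32 * κ) * x ^ 7) := by
    field_simp
    ring
  linarith

theorem NUM : ST_NUM := by
  intro C C1 κ D hC hC1 hκ hD
  have hκ0 : 0 < κ := by linarith
  obtain ⟨η, hη⟩ : ∃ η : ℝ, η = 1 / (2 * κ * (C1 * C + C + 1)) := ⟨_, rfl⟩
  have hS : 0 < C1 * C + C := by positivity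
  have hη0 : 0 < η := by rw [hη]; positivity
  have hη2 : η * (C1 * C + C + 1) = 1 / (2 * κ) := by rw [hη]; field_simp
  have hκ1 : 1 / (2 * κ) ≤ 1 / 2 := one_div_le_one_div_of_le (by norm_num) (by linarith)
  have hηκ : η ≤ 1 / (2 * κ) := by rw [← hη2]; nlinarith
  have hη1 : η ≤ 1 := by linarith
  have hη3 : (C1 * C + C) * η ≤ 1 / (2 * κ) := by rw [← hη2]; nlinarith
  obtain ⟨A, hA⟩ : ∃ A : ℝ, A = 128 * C1 * C / D ^ 2 + 64 * C / D + 256 * C / D := ⟨_, rfl⟩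
  have hA0 : 0 < A := by rw [hA]; positivity
  refine ⟨η ^ 3 / (32 * κ), 1 + 2 / η + 32 / (D * η) + 4 / D + (32 * κ * A / η ^ 3) ^ 2,
    by positivity, ?_, ?_⟩
  · have : 0 ≤ 2 / η + 32 / (D * η) + 4 / D + (32 * κ * A / η ^ 3) ^ 2 := by positivity
    linarith
  intro x N hx hN1 hN2
  have p1 : 0 ≤ 2 / η := by positivity
  have p2 : 0 ≤ 32 / (D * η) := by positivity
  have p3 : 0 ≤ 4 / D := by positivity
  have p4 : 0 ≤ (32 * κ * A / η ^ 3) ^ 2 := by positivity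
  have hx1 : 1 ≤ x := by linarith
  have hx0 : 0 < x := by linarith
  have hx2 : 2 ≤ η * x := by
    have : 2 / η ≤ x := by linarith
    rwa [div_le_iff₀ hη0, mul_comm] at this
  have hx3 : 32 ≤ D * (η * x) := by
    have : 32 / (D * η) ≤ x := by linarith
    rw [div_le_iff₀ (by positivity)] at this
    linarith
  have hx4 : 4 ≤ D * x := by
    have : 4 / D ≤ x := by linarith
    rwa [div_le_iff₀ hD, mul_comm] at this
  have hx5 : 32 * κ * A / η ^ 3 ≤ Real.sqrt x := Real.le_sqrt_of_sq_le (by linarith)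
  obtain ⟨K, hK⟩ : ∃ K : ℕ, K = ⌊η * x⌋₊ := ⟨_, rfl⟩
  obtain ⟨L, hL⟩ : ∃ L : ℕ, L = ⌈x⌉₊ := ⟨_, rfl⟩
  have hK1 : (K : ℝ) ≤ η * x := by rw [hK]; exact Nat.floor_le (by positivity)
  have hK2 : η * x < K + 1 := by rw [hK]; exact Nat.lt_floor_add_one _
  have hK3 : η * x / 2 ≤ K := by linarith
  have hK4 : (1 : ℝ) ≤ K := by linarith
  have hL1 : x ≤ L := by rw [hL]; exact Nat.le_ceil x
  have hL2 : (L : ℝ) ≤ 2 * x := by
    have : (L : ℝ) < x + 1 := by rw [hL]; exact Nat.ceil_lt_add_one hx0.le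
    linarith
  have hL3 : (1 : ℝ) ≤ L := by linarith
  have hK0 : (0 : ℝ) < K := by linarith
  have hL0 : (0 : ℝ) < L := by linarith
  have hKK : (K : ℝ) ^ 3 ≤ η * x ^ 3 := by
    have c0 : (K : ℝ) ≤ x := by nlinarith
    calc (K : ℝ) ^ 3 = K * K * K := by ring
      _ ≤ (η * x) * x * x := by gcongr
      _ = η * x ^ 3 := by ring
  have hh : ((N / 2 : ℕ) : ℝ) ≤ x ^ 3 / 2 := by
    have : ((N / 2 : ℕ) : ℝ) ≤ (N : ℝ) / 2 := Nat.cast_div_le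
    linarith
  refine ⟨K, L, 1 / (x * K), D / (8 * L), by positivity, ?_, by exact_mod_cast hK4,
    by exact_mod_cast hL3, ?_, ?_, ?_, ?_, ?_⟩
  · rw [div_le_div_iff₀ (by positivity) (by positivity)]
    nlinarith
  · rw [Nat.le_div_iff_mul_le (by norm_num)]
    have : (K : ℝ) ^ 3 * 2 ≤ N := by
      have c1 : η * x ^ 3 ≤ 1 / (2 * κ) * x ^ 3 := by gcongr
      have c2 : x ^ 3 / κ = 2 * (1 / (2 * κ) * x ^ 3) := by field_simp
      linarith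
    exact_mod_cast this
  · have : ((N / 2 : ℕ) : ℝ) ≤ (K : ℝ) ^ 3 + (L : ℝ) ^ 3 := by
      have c1 : x ^ 3 ≤ (L : ℝ) ^ 3 := by gcongr
      have c2 : 0 ≤ x ^ 3 := by positivity
      have c3 : 0 ≤ (K : ℝ) ^ 3 := by positivity
      linarith
    exact_mod_cast this
  · rw [div_le_iff₀ (by positivity)]
    nlinarith
  · have c1 : 1 / (x * K) * K = 1 / x := by field_simp
    have c2 : D / (8 * L) * L = D / 8 := by field_simp
    rw [c1, c2]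
    have c3 : 1 / x ≤ D / 4 := by
      rw [div_le_div_iff₀ hx0 (by norm_num)]
      linarith
    linarith
  · have h1 := num_main (h := ((N / 2 : ℕ) : ℝ)) (k := (K : ℝ)) (l := (L : ℝ)) (n := (N : ℝ))
      hC hC1 hκ hD hη0 hη1 hη3 hA hx1 hK0 hK1 hK3 hL3 hL2 hN1 hh hx5
    exact h1

end Pool.Agent.Helper8.HT
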